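import Pool.Agent.Helper74.BL.Base

/-!
# Sets of letters

`base : K → J → J` is a 2-factorisation for the labels `f : J → K`, the new label `g` has its own
class `none`. A letter `(x, j)` switches the square `x, x + f j, x + g, x + f j + g`: it is valid if
`base (x + g) j = base x j`. `Lcol` is the colouring after switching a compatible set `L` of letters.
-/

set_option autoImplicit false
set_option linter.unusedSectionVars false

namespace Pool.Agent.Helper4.BL

open Finset Pool.Agent.Helper74.BL

variable {K : Type*} [AddCommGroup K] [DecidableEq K] {J : Type*} [Fintype J] [DecidableEq J]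

/-- the two `g`-edges (given by their tails) used by a letter -/
def tails (f : J → K) (l : K × J) : Finset K := {l.1, l.1 + f l.2}

theorem mem_tails {f : J → K} {l : K × J} {x : K} :
    x ∈ tails f l ↔ x = l.1 ∨ x = l.1 + f l.2 := by
  simp [tails]

/-- a compatible set of letters: the switched squares are valid and have no common edges -/
structure Compat (g : K) (f : J → K) (base : K → J → J) (L : Finset (K × J)) : Prop where
  g0 : g ≠ 0
  fj : ∀ l ∈ L, f l.2 ≠ 0
  val : ∀ l ∈ L, base (l.1 + g) l.2 = base l.1 l.2
  hor : ∀ l ∈ L, (l.1 + g, l.2) ∉ L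
  tail : ∀ l ∈ L, ∀ l' ∈ L, l ≠ l' → Disjoint (tails f l) (tails f l')

theorem Compat.mono {g : K} {f : J → K} {base : K → J → J} {L L' : Finset (K × J)}
    (h : Compat g f base L) (hL : L' ⊆ L) : Compat g f base L' :=
  ⟨h.g0, fun l hl => h.fj l (hL hl), fun l hl => h.val l (hL hl),
    fun l hl hl' => h.hor l (hL hl) (hL hl'),
    fun l hl l' hl' => h.tail l (hL hl) l' (hL hl')⟩

theorem Compat.eq_of_tails {g : K} {f : J → K} {base : K → J → J} {L : Finset (K × J)}
    (h : Compat g f base L) {l l' : K × J} (hl : l ∈ L) (hl' : l' ∈ L) {x : K}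
    (hx : x ∈ tails f l) (hx' : x ∈ tails f l') : l = l' := by
  by_contra hne
  exact (Finset.disjoint_left.1 (h.tail l hl l' hl' hne)) hx hx'

theorem Compat.hor' {g : K} {f : J → K} {base : K → J → J} {L : Finset (K × J)}
    (h : Compat g f base L) {l : K × J} (hl : l ∈ L) : (l.1 - g, l.2) ∉ L := by
  intro h1
  apply h.hor _ h1
  simpa using hl

open Classical in
/-- the colouring after the letters of `L` -/
noncomputable def Lcol (g : K) (f : J → K) (base : K → J → J) (L : Finset (K × J)) :
    K → Option J → Option J := fun x o =>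
  match o with
  | none => if h : ∃ l ∈ L, x ∈ tails f l then some (base h.choose.1 h.choose.2) else none
  | some j => if (x, j) ∈ L ∨ (x - g, j) ∈ L then none else some (base x j)

variable {g : K} {f : J → K} {base : K → J → J} {L : Finset (K × J)}

theorem Lcol_none (h : Compat g f base L) {l : K × J} (hl : l ∈ L) {x : K}
    (hx : x ∈ tails f l) : Lcol g f base L x none = some (base l.1 l.2) := by
  have h1 : ∃ l ∈ L, x ∈ tails f l := ⟨l, hl, hx⟩
  have h2 := h1.choose_spec
  have h3 := h.eq_of_tails h2.1 hl h2.2 hx
  simp only [Lcol]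
  rw [dif_pos h1, h3]

theorem Lcol_none' {x : K} (hx : ∀ l ∈ L, x ∉ tails f l) : Lcol g f base L x none = none := by
  simp only [Lcol]
  rw [dif_neg]
  rintro ⟨l, hl, h⟩
  exact hx l hl h

theorem Lcol_none_iff {x : K} : Lcol g f base L x none = none ↔ ∀ l ∈ L, x ∉ tails f l := by
  constructor
  · intro h l hl hx
    simp only [Lcol] at h
    rw [dif_pos ⟨l, hl, hx⟩] at h
    exact absurd h (by simp)
  · exact Lcol_none'

theorem Lcol_some {x : K} {j : J} (h : (x, j) ∉ L) (h' : (x - g, j) ∉ L) :
    Lcol g f base L x (some j) = some (base x j) := by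
  simp only [Lcol]
  rw [if_neg]
  rintro (h1 | h1)
  · exact h h1
  · exact h' h1

theorem Lcol_some' {x : K} {j : J} (h : (x, j) ∈ L ∨ (x - g, j) ∈ L) :
    Lcol g f base L x (some j) = none := by
  simp only [Lcol]
  rw [if_pos h]

/-- the step: one more letter is one more switched square -/
theorem Lcol_insert {l : K × J} (h : Compat g f base (insert l L)) (hl : l ∉ L) :
    IsSq (lab g f) (Lcol g f base L) l.1 (some l.2) none ∧
    Lcol g f base (insert l L) = sqSwap (lab g f) l.1 (some l.2) none (Lcol g f base L) ∧
    Lcol g f base L l.1 (some l.2) = some (base l.1 l.2) ∧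
    Lcol g f base L l.1 none = none := by
  classical
  have hL : Compat g f base L := h.mono (subset_insert _ _)
  have hm : l ∈ insert l L := mem_insert_self _ _
  have h1 : (l.1, l.2) ∉ L := hl
  have h2 : (l.1 - g, l.2) ∉ L := fun h' => h.hor' hm (mem_insert_of_mem h')
  have h3 : (l.1 + g, l.2) ∉ L := fun h' => h.hor l hm (mem_insert_of_mem h')
  have ht : ∀ l' ∈ L, ∀ x ∈ tails f l, x ∉ tails f l' := by
    intro l' hl' x hx hx'
    have := h.eq_of_tails hm (mem_insert_of_mem hl') hx hx'
    exact hl (this ▸ hl')
  have c1 : Lcol g f base L l.1 (some l.2) = some (base l.1 l.2) := Lcol_some h1 h2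
  have c2 : Lcol g f base L (l.1 + g) (some l.2) = some (base l.1 l.2) := by
    rw [Lcol_some h3 (by rwa [add_sub_cancel_right]), h.val l hm]
  have c3 : Lcol g f base L l.1 none = none :=
    Lcol_none' fun l' hl' => ht l' hl' _ (mem_tails.2 (Or.inl rfl))
  have c4 : Lcol g f base L (l.1 + f l.2) none = none :=
    Lcol_none' fun l' hl' => ht l' hl' _ (mem_tails.2 (Or.inr rfl))
  have hsq : IsSq (lab g f) (Lcol g f base L) l.1 (some l.2) none :=
    ⟨by simp, h.fj l hm, h.g0, by rw [lab_none, c2, c1], by rw [lab_some, c4, c3]⟩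
  refine ⟨hsq, ?_, c1, c3⟩
  have hc : Lcol g f base L l.1 (some l.2) ≠ Lcol g f base L l.1 none := by
    rw [c1, c3]
    simp
  funext x o
  cases o with
  | none =>
    by_cases hx : x ∈ tails f l
    · rw [Lcol_none h hm hx]
      rcases mem_tails.1 hx with rfl | rfl
      · rw [hsq.swap_j, c1]
      · have := hsq.swap_j'
        rw [lab_some] at this
        rw [this, c1]
    · have h5 : (x, (none : Option J)) ∉ sqSet (lab g f) l.1 (some l.2) none := by
        rw [mem_sqSet]
        rintro (h6 | h6 | h6 | h6)
        · simp at h6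
        · simp at h6
        · exact hx (mem_tails.2 (Or.inl (Prod.mk.inj h6).1))
        · exact hx (mem_tails.2 (Or.inr (Prod.mk.inj h6).1))
      rw [sqSwap_of_notMem h5]
      by_cases h6 : ∃ l' ∈ L, x ∈ tails f l'
      · obtain ⟨l', hl', hx'⟩ := h6
        rw [Lcol_none h (mem_insert_of_mem hl') hx', Lcol_none hL hl' hx']
      · push Not at h6
        rw [Lcol_none' h6, Lcol_none']
        intro l' hl'
        rcases mem_insert.1 hl' with rfl | hl'
        · exact hx
        · exact h6 l' hl'
  | some j =>
    by_cases hx : (x, j) = l ∨ (x - g, j) = l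
    · rw [Lcol_some' (by
        rcases hx with hx | hx
        · exact Or.inl (hx ▸ hm)
        · exact Or.inr (hx ▸ hm))]
      rcases hx with hx | hx
      · subst hx
        rw [hsq.swap_i, c3]
      · have h7 : x = l.1 + g := by
          rw [← hx]
          simp
        have h8 : j = l.2 := by rw [← hx]
        subst h8
        subst h7
        have := hsq.swap_i'
        rw [lab_none] at this
        rw [this, c3]
    · push Not at hx
      have h5 : (x, some j) ∉ sqSet (lab g f) l.1 (some l.2) none := by
        rw [mem_sqSet]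
        rintro (h6 | h6 | h6 | h6)
        · obtain ⟨h7, h8⟩ := Prod.mk.inj h6
          exact hx.1 (by
            rw [h7, Option.some.inj h8])
        · obtain ⟨h7, h8⟩ := Prod.mk.inj h6
          apply hx.2
          rw [h7, Option.some.inj h8, lab_none, add_sub_cancel_right]
        · simp at h6
        · simp at h6
      rw [sqSwap_of_notMem h5]
      by_cases h6 : (x, j) ∈ L ∨ (x - g, j) ∈ L
      · rw [Lcol_some' h6, Lcol_some' (by
          rcases h6 with h6 | h6
          · exact Or.inl (mem_insert_of_mem h6)
          · exact Or.inr (mem_insert_of_mem h6))]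
      · push Not at h6
        rw [Lcol_some h6.1 h6.2, Lcol_some (by
          rw [mem_insert]
          push Not
          exact ⟨hx.1, h6.1⟩) (by
          rw [mem_insert]
          push Not
          exact ⟨hx.2, h6.2⟩)]

theorem Lcol_empty : Lcol g f base ∅ = fun x o => o.elim none fun j => some (base x j) := by
  funext x o
  cases o with
  | none => exact Lcol_none' (by simp)
  | some j => exact Lcol_some (by simp) (by simp)

theorem deg2_empty (hd : Deg2 f base) : Deg2 (lab g f) (Lcol g f base ∅) := by
  rw [Lcol_empty]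
  intro x c
  unfold hdeg
  rw [card_filter_option, card_filter_option]
  cases c with
  | none => simp
  | some c =>
    have := hd x c
    unfold hdeg at this
    simpa using this

/-- the colouring after the letters is again a 2-factorisation -/
theorem Deg2.lcol (hd : Deg2 f base) (h : Compat g f base L) :
    Deg2 (lab g f) (Lcol g f base L) := by
  induction L using Finset.induction_on with
  | empty => exact deg2_empty hd
  | insert l L hl ih =>
    obtain ⟨h1, h2, -⟩ := Lcol_insert h hl
    rw [h2]
    exact (ih (h.mono (subset_insert _ _))).sqSwap h1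

/-! ### functions constant on the classes -/

/-- `C` is constant along the edges of the new class -/
def ConstG (g : K) (f : J → K) (L : Finset (K × J)) {α : Type*} (C : K → α) : Prop :=
  (∀ x, (∀ l ∈ L, x ∉ tails f l) → C x = C (x + g)) ∧
    ∀ l ∈ L, C l.1 = C (l.1 + f l.2) ∧ C (l.1 + g) = C (l.1 + g + f l.2)

/-- `C` is constant along the edges of the class `c` -/
def ConstV (g : K) (f : J → K) (base : K → J → J) (L : Finset (K × J)) (c : J) {α : Type*}
    (C : K → α) : Prop :=
  (∀ x j, base x j = c → (x, j) ∉ L → (x - g, j) ∉ L → C x = C (x + f j)) ∧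
    ∀ l ∈ L, base l.1 l.2 = c → C l.1 = C (l.1 + g) ∧ C (l.1 + f l.2) = C (l.1 + f l.2 + g)

theorem constG_iff (h : Compat g f base L) {α : Type*} {C : K → α} :
    ConstG g f L C ↔
      ∀ x o, Lcol g f base L x o = none → C x = C (x + lab g f o) := by
  constructor
  · rintro ⟨h1, h2⟩ x o ho
    cases o with
    | none => exact h1 x (Lcol_none_iff.1 ho)
    | some j =>
      rw [lab_some]
      by_cases h3 : (x, j) ∈ L
      · exact (h2 _ h3).1
      · by_cases h4 : (x - g, j) ∈ L
        · have := (h2 _ h4).2
          simpa using this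
        · rw [Lcol_some h3 h4] at ho
          exact absurd ho (by simp)
  · intro h1
    refine ⟨fun x hx => h1 x none (Lcol_none' hx), fun l hl => ⟨?_, ?_⟩⟩
    · exact h1 l.1 (some l.2) (Lcol_some' (Or.inl hl))
    · exact h1 (l.1 + g) (some l.2) (Lcol_some' (Or.inr (by simpa using hl)))

theorem constV_iff (h : Compat g f base L) {c : J} {α : Type*} {C : K → α} :
    ConstV g f base L c C ↔
      ∀ x o, Lcol g f base L x o = some c → C x = C (x + lab g f o) := by
  constructor
  · rintro ⟨h1, h2⟩ x o ho
    cases o with
    | none =>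
      by_cases h3 : ∃ l ∈ L, x ∈ tails f l
      · obtain ⟨l, hl, hx⟩ := h3
        rw [Lcol_none h hl hx] at ho
        have h4 := h2 l hl (Option.some.inj ho)
        rcases mem_tails.1 hx with rfl | rfl
        · exact h4.1
        · exact h4.2
      · push Not at h3
        rw [Lcol_none' h3] at ho
        exact absurd ho (by simp)
    | some j =>
      rw [lab_some]
      by_cases h3 : (x, j) ∈ L ∨ (x - g, j) ∈ L
      · rw [Lcol_some' h3] at ho
        exact absurd ho (by simp)
      · push Not at h3
        rw [Lcol_some h3.1 h3.2] at ho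
        exact h1 x j (Option.some.inj ho) h3.1 h3.2
  · intro h1
    refine ⟨fun x j hj h2 h3 => h1 x (some j) (by rw [Lcol_some h2 h3, hj]),
      fun l hl hc => ⟨?_, ?_⟩⟩
    · exact h1 l.1 none (by rw [Lcol_none h hl (mem_tails.2 (Or.inl rfl)), hc])
    · exact h1 (l.1 + f l.2) none (by rw [Lcol_none h hl (mem_tails.2 (Or.inr rfl)), hc])

section Final

variable [Fintype K]

theorem conn_none_iff (h : Compat g f base L) :
    Conn (lab g f) (Lcol g f base L) none ↔
      ∀ C : K → ZMod 2, ConstG g f L C → ∀ x y, C x = C y := by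
  rw [conn_iff]
  exact forall_congr' fun C => by rw [constG_iff h]

theorem conn_some_iff (h : Compat g f base L) {c : J} :
    Conn (lab g f) (Lcol g f base L) (some c) ↔
      ∀ C : K → ZMod 2, ConstV g f base L c C → ∀ x y, C x = C y := by
  rw [conn_iff]
  exact forall_congr' fun C => by rw [constV_iff h]

/-- the final criterion -/
theorem eDec_of_letters (hd : Deg2 f base) (h : Compat g f base L)
    (hG : ∀ C : K → ZMod 2, ConstG g f L C → ∀ x y, C x = C y)
    (hV : ∀ c, ∀ C : K → ZMod 2, ConstV g f base L c C → ∀ x y, C x = C y) :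
    EDec (lab g f) := by
  refine ⟨Lcol g f base L, Deg2.lcol hd h, fun o => ?_⟩
  cases o with
  | none => exact (conn_none_iff h).2 hG
  | some c => exact (conn_some_iff h).2 (hV c)

end Final

/-- only the letters of the class `c` matter for the class `c` -/
theorem constV_filter (h : Compat g f base L) {c : J} {α : Type*} {C : K → α} :
    ConstV g f base L c C ↔ ConstV g f base (L.filter fun l => base l.1 l.2 = c) c C := by
  unfold ConstV
  simp only [mem_filter]
  constructor
  · rintro ⟨h1, h2⟩
    refine ⟨fun x j hj h3 h4 => h1 x j hj (fun h5 => h3 ⟨h5, hj⟩) (fun h5 => h4 ⟨h5, ?_⟩),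
      fun l hl => h2 l hl.1⟩
    have := h.val _ h5
    simp only [sub_add_cancel] at this
    rw [← this, hj]
  · rintro ⟨h1, h2⟩
    exact ⟨fun x j hj h3 h4 => h1 x j hj (fun h5 => h3 h5.1) (fun h5 => h4 h5.1),
      fun l hl hc => h2 l ⟨hl, hc⟩ hc⟩

theorem constV_congr (h : Compat g f base L) {L' : Finset (K × J)} (h' : Compat g f base L')
    {c : J} (hc : ∀ l, base l.1 l.2 = c → (l ∈ L ↔ l ∈ L')) {α : Type*} {C : K → α} :
    ConstV g f base L c C ↔ ConstV g f base L' c C := by
  rw [constV_filter h, constV_filter h']
  have : (L.filter fun l => base l.1 l.2 = c) = L'.filter fun l => base l.1 l.2 = c := by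
    ext l
    simp only [mem_filter]
    constructor
    · rintro ⟨h1, h2⟩
      exact ⟨(hc l h2).1 h1, h2⟩
    · rintro ⟨h1, h2⟩
      exact ⟨(hc l h2).2 h1, h2⟩
  rw [this]

/-- only the tails matter for functions with values in any type -/
theorem ConstG.comp {α β : Type*} {C : K → α} (h : ConstG g f L C) (φ : α → β) :
    ConstG g f L (φ ∘ C) :=
  ⟨fun x hx => congrArg φ (h.1 x hx), fun l hl => ⟨congrArg φ (h.2 l hl).1,
    congrArg φ (h.2 l hl).2⟩⟩

theorem ConstV.comp {c : J} {α β : Type*} {C : K → α} (h : ConstV g f base L c C) (φ : α → β) :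
    ConstV g f base L c (φ ∘ C) :=
  ⟨fun x j h1 h2 h3 => congrArg φ (h.1 x j h1 h2 h3), fun l hl hc =>
    ⟨congrArg φ (h.2 l hl hc).1, congrArg φ (h.2 l hl hc).2⟩⟩

section Merge

variable [Fintype K]

/-- one more letter joining two components of the new class -/
theorem mergeG (hd : Deg2 f base) {l : K × J} (h : Compat g f base (insert l L)) (hl : l ∉ L)
    {D : K → ZMod 2} (hD : ConstG g f L D) (hne : D l.1 ≠ D (l.1 + f l.2)) {C : K → ZMod 2}
    (hC : ConstG g f (insert l L) C) : ConstG g f L C ∧ C l.1 = C (l.1 + f l.2) := by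
  have hL : Compat g f base L := h.mono (subset_insert _ _)
  obtain ⟨h1, h2, h3, h4⟩ := Lcol_insert h hl
  have hne' : Lcol g f base L l.1 none ≠ Lcol g f base L l.1 (some l.2) := by
    rw [h3, h4]
    simp
  have := h1.symm.merge (Deg2.lcol hd hL) hne' (D := D) (by
    rw [h4]
    exact (constG_iff hL).1 hD) hne (C := C) (by
    rw [sqSwap_symm, ← h2, h4]
    exact (constG_iff h).1 hC)
  rw [h4] at this
  exact ⟨(constG_iff hL).2 this.1, this.2⟩

/-- one more letter joining two components of the class `c` -/
theorem mergeV (hd : Deg2 f base) {l : K × J} (h : Compat g f base (insert l L)) (hl : l ∉ L)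
    {D : K → ZMod 2} (hD : ConstV g f base L (base l.1 l.2) D) (hne : D l.1 ≠ D (l.1 + g))
    {C : K → ZMod 2} (hC : ConstV g f base (insert l L) (base l.1 l.2) C) :
    ConstV g f base L (base l.1 l.2) C ∧ C l.1 = C (l.1 + g) := by
  have hL : Compat g f base L := h.mono (subset_insert _ _)
  obtain ⟨h1, h2, h3, h4⟩ := Lcol_insert h hl
  have hne' : Lcol g f base L l.1 (some l.2) ≠ Lcol g f base L l.1 none := by
    rw [h3, h4]
    simp
  have := h1.merge (Deg2.lcol hd hL) hne' (D := D) (by
    rw [h3]
    exact (constV_iff hL).1 hD) (by simpa using hne) (C := C) (by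
    rw [← h2, h3]
    exact (constV_iff h).1 hC)
  rw [h3] at this
  exact ⟨(constV_iff hL).2 this.1, by simpa using this.2⟩

end Merge

end Pool.Agent.Helper4.BL
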