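import Mathlib

/-!
# Words of letters on a ring of `N` strands

A row is a function on `ZMod N`. The letter `p` between the rows `a` and `b` joins the strands
`p, p + 1` on both sides; all other strands pass. Words are written from right to left (`p :: w`
has the last letter `p`); the last row is glued to the first one with a shift `κ`. `Single w κ`
means that the resulting curve system is a single loop: every labelling with values in `ZMod 2`
which is constant along the strands is constant.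
-/

set_option autoImplicit false
set_option linter.unusedSectionVars false

namespace Pool.Agent.Helper4.BL.Ring

open Finset

variable {N : ℕ} [NeZero N] {α : Type*}

/-- the letter `p` between two rows -/
def Step (p : ZMod N) (a b : ZMod N → α) : Prop :=
  (∀ t, t ≠ p → t ≠ p + 1 → a t = b t) ∧ a p = a (p + 1) ∧ b p = b (p + 1)

/-- the rows `C 0, …, C w.length` fit to the letters of `w` (last letter first) -/
def Path : List (ZMod N) → (ℕ → ZMod N → α) → Prop
  | [], _ => True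
  | p :: w, C => Path w C ∧ Step p (C w.length) (C (w.length + 1))

/-- a closed labelling -/
def Sol (w : List (ZMod N)) (κ : ZMod N) (C : ℕ → ZMod N → α) : Prop :=
  Path w C ∧ ∀ t, C w.length t = C 0 (t + κ)

/-- the word is a single loop -/
def Single (w : List (ZMod N)) (κ : ZMod N) : Prop :=
  ∀ C : ℕ → ZMod N → ZMod 2, Sol w κ C → ∀ k ≤ w.length, ∀ t, C k t = C 0 0

theorem Path.congr {w : List (ZMod N)} {C D : ℕ → ZMod N → α} (h : Path w C)
    (hCD : ∀ k ≤ w.length, C k = D k) : Path w D := by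
  induction w with
  | nil => trivial
  | cons p w ih =>
    refine ⟨ih h.1 fun k hk => hCD k (by simp; omega), ?_⟩
    rw [← hCD w.length (by simp), ← hCD (w.length + 1) (by simp)]
    exact h.2

theorem Path.suffix {u w : List (ZMod N)} {C : ℕ → ZMod N → α} (h : Path (u ++ w) C) :
    Path w C := by
  induction u with
  | nil => exact h
  | cons p u ih => exact ih h.1

theorem Step.comp {p : ZMod N} {β : Type*} {a b : ZMod N → α} (h : Step p a b) (φ : α → β) :
    Step p (fun t => φ (a t)) (fun t => φ (b t)) :=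
  ⟨fun t h1 h2 => congrArg φ (h.1 t h1 h2), congrArg φ h.2.1, congrArg φ h.2.2⟩

theorem Path.comp {w : List (ZMod N)} {β : Type*} {C : ℕ → ZMod N → α} (h : Path w C)
    (φ : α → β) : Path w fun k t => φ (C k t) := by
  induction w with
  | nil => trivial
  | cons p w ih => exact ⟨ih h.1, h.2.comp φ⟩

theorem Step.map₂ {p : ZMod N} {β γ : Type*} {a b : ZMod N → α} {a' b' : ZMod N → β}
    (h : Step p a b) (h' : Step p a' b') (φ : α → β → γ) :
    Step p (fun t => φ (a t) (a' t)) (fun t => φ (b t) (b' t)) :=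
  ⟨fun t h1 h2 => by simp only [h.1 t h1 h2, h'.1 t h1 h2], by simp only [h.2.1, h'.2.1],
    by simp only [h.2.2, h'.2.2]⟩

theorem Path.map₂ {w : List (ZMod N)} {β γ : Type*} {C : ℕ → ZMod N → α} {D : ℕ → ZMod N → β}
    (h : Path w C) (h' : Path w D) (φ : α → β → γ) : Path w fun k t => φ (C k t) (D k t) := by
  induction w with
  | nil => trivial
  | cons p w ih => exact ⟨ih h.1 h'.1, h.2.map₂ h'.2 φ⟩

theorem z2_add_self (a : ZMod 2) : a + a = 0 := CharTwo.add_self_eq_zero a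

theorem z2_add_eq_zero {a b : ZMod 2} : a + b = 0 ↔ a = b := CharTwo.add_eq_zero

theorem ne_succ (hN : 2 ≤ N) (p : ZMod N) : p ≠ p + 1 := by
  intro h
  have h1 : (1 : ZMod N) = 0 := by simpa using (left_eq_add.1 h)
  have : Fact (1 < N) := ⟨by omega⟩
  exact one_ne_zero h1

theorem ne_succ_succ (hN : 3 ≤ N) (p : ZMod N) : p ≠ p + 1 + 1 := by
  intro h
  rw [add_assoc] at h
  have h1 : (1 + 1 : ZMod N) = 0 := by simpa using (left_eq_add.1 h)
  have h2 : ((2 : ℕ) : ZMod N) = 0 := by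
    rw [← h1]
    norm_num
  rw [ZMod.natCast_eq_zero_iff] at h2
  exact absurd (Nat.le_of_dvd (by norm_num) h2) (by omega)

/-- the sum of a row -/
theorem Step.sum (hN : 2 ≤ N) {p : ZMod N} {a b : ZMod N → ZMod 2} (h : Step p a b) :
    ∑ t, a t = ∑ t, b t := by
  have hp : p ≠ p + 1 := ne_succ hN p
  have h1 : ∀ c : ZMod N → ZMod 2, c p = c (p + 1) →
      ∑ t, c t = ∑ t ∈ univ \ {p, p + 1}, c t := by
    intro c hc
    rw [← sum_sdiff (subset_univ {p, p + 1}), sum_pair hp, hc, z2_add_self, add_zero]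
  rw [h1 a h.2.1, h1 b h.2.2]
  refine sum_congr rfl fun t ht => ?_
  simp only [mem_sdiff, mem_univ, mem_insert, mem_singleton, true_and, not_or] at ht
  exact h.1 t ht.1 ht.2

/-- the invariant of two solutions -/
theorem Path.sum (hN : 2 ≤ N) {w : List (ZMod N)} {C : ℕ → ZMod N → ZMod 2} (h : Path w C) :
    ∑ t, C w.length t = ∑ t, C 0 t := by
  induction w with
  | nil => rfl
  | cons p w ih =>
    rw [← ih h.1, List.length_cons]
    exact (h.2.sum hN).symm

theorem Sol.inner (hN : 2 ≤ N) {w w' : List (ZMod N)} {κ : ZMod N} {C D : ℕ → ZMod N → ZMod 2}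
    (hC : Path w C) (hD : Path w D) (C' D' : ZMod N → ZMod 2) (hC' : ∀ t, C' t = C 0 (t + κ))
    (hD' : ∀ t, D' t = D 0 (t + κ)) :
    ∑ t, C w.length t * D w.length t = ∑ t, C' t * D' t := by
  have h1 := (hC.map₂ hD fun x y => x * y).sum hN
  rw [h1]
  simp only [hC', hD']
  exact (Fintype.sum_equiv (Equiv.addRight κ) _ _ fun t => rfl).symm

/-- (R1) MERGE: a letter joining two components -/
theorem merge (hN : 2 ≤ N) {w : List (ZMod N)} {κ p : ZMod N} {D : ℕ → ZMod N → ZMod 2}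
    (hD : Sol w κ D) (hne : D w.length p ≠ D w.length (p + 1)) {C : ℕ → ZMod N → ZMod 2}
    (hC : Sol (p :: w) κ C) : C (w.length + 1) = C w.length := by
  obtain ⟨⟨h1, h2⟩, h3⟩ := hC
  have hp : p ≠ p + 1 := ne_succ hN p
  have h4 := Sol.inner (w' := w) hN h1 hD.1 (C (w.length + 1)) (D w.length)
    (fun t => by simpa using h3 t) hD.2
  have h5 : ∑ t, (C w.length t + C (w.length + 1) t) * D w.length t = 0 := by
    simp only [add_mul, sum_add_distrib]
    rw [h4, z2_add_self]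
  rw [← sum_sdiff (subset_univ {p, p + 1}), sum_pair hp, sum_eq_zero (fun t ht => by
    simp only [mem_sdiff, mem_univ, mem_insert, mem_singleton, true_and, not_or] at ht
    rw [h2.1 t ht.1 ht.2, z2_add_self, zero_mul]), zero_add, ← h2.2.1, ← h2.2.2, ← mul_add] at h5
  have h6 : C w.length p = C (w.length + 1) p := by
    have h7 : ∀ u v x y : ZMod 2, x ≠ y → (u + v) * (x + y) = 0 → u = v := by decide
    exact h7 _ _ _ _ hne h5
  funext t
  by_cases h8 : t = p
  · rw [h8, h6]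
  · by_cases h9 : t = p + 1
    · rw [h9, ← h2.2.1, ← h2.2.2, h6]
    · exact (h2.1 t h8 h9).symm

theorem Sol.add_const {w : List (ZMod N)} {κ : ZMod N} {C : ℕ → ZMod N → ZMod 2}
    (h : Sol w κ C) (a : ZMod 2) : Sol w κ fun k t => C k t + a :=
  ⟨h.1.comp (fun x => x + a), fun t => by simp only [h.2 t]⟩

/-- (R2) NEUTRAL PAIR: one of the two orders of `p, p + 1` can be appended -/
theorem Single.pair (hN : 3 ≤ N) {w : List (ZMod N)} {κ : ZMod N} (h : Single w κ) (p : ZMod N) :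
    Single ((p + 1) :: p :: w) κ ∨ Single (p :: (p + 1) :: w) κ := by
  classical
  have hN' : 2 ≤ N := by omega
  have n1 : p ≠ p + 1 := ne_succ hN' p
  have n2 : p ≠ p + 1 + 1 := ne_succ_succ hN p
  have n3 : p + 1 ≠ p + 1 + 1 := ne_succ hN' _
  by_contra hcon
  rw [not_or] at hcon
  obtain ⟨hA, hB⟩ := hcon
  unfold Single at hA hB
  push Not at hA hB
  obtain ⟨C₀, hC₀, k, hk, t, hkt⟩ := hA
  obtain ⟨D₀, hD₀, k', hk', t', hkt'⟩ := hB
  set n := w.length with hn
  have hC := hC₀.add_const (C₀ (n + 1) p)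
  have hD := hD₀.add_const (D₀ (n + 1) p)
  set C : ℕ → ZMod N → ZMod 2 := fun k t => C₀ k t + C₀ (n + 1) p with hCdef
  set D : ℕ → ZMod N → ZMod 2 := fun k t => D₀ k t + D₀ (n + 1) p with hDdef
  obtain ⟨⟨⟨cw, c1⟩, c2⟩, c3⟩ := hC
  obtain ⟨⟨⟨dw, d1⟩, d2⟩, d3⟩ := hD
  simp only [List.length_cons, ← hn] at c1 c2 c3 d1 d2 d3 hk hk'
  have cm0 : C (n + 1) p = 0 := z2_add_self _
  have cm1 : C (n + 1) (p + 1) = 0 := by rw [← c1.2.2, cm0]
  have cm2 : C (n + 1) (p + 1 + 1) = 0 := by rw [← c2.2.1, cm1]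
  have dm0 : D (n + 1) p = 0 := z2_add_self _
  have dm1 : D (n + 1) (p + 1) = 0 := by rw [← d2.2.1, dm0]
  have dm2 : D (n + 1) (p + 1 + 1) = 0 := by rw [← d1.2.2, dm1]
  have ca2 : C n (p + 1 + 1) = 0 := by rw [c1.1 _ n2.symm n3.symm, cm2]
  have cb0 : C (n + 1 + 1) p = 0 := by rw [← c2.1 _ n1 n2, cm0]
  have da0 : D n p = 0 := by rw [d1.1 _ n1 n2, dm0]
  have db2 : D (n + 1 + 1) (p + 1 + 1) = 0 := by rw [← d2.1 _ n2.symm n3.symm, dm2]
  have ca1 : C n (p + 1) = C n p := c1.2.1.symm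
  have cb1 : C (n + 1 + 1) (p + 1 + 1) = C (n + 1 + 1) (p + 1) := c2.2.2.symm
  have da1 : D n (p + 1 + 1) = D n (p + 1) := d1.2.1.symm
  have db1 : D (n + 1 + 1) (p + 1) = D (n + 1 + 1) p := d2.2.2.symm
  have coff : ∀ t, t ≠ p → t ≠ p + 1 → t ≠ p + 1 + 1 → C n t = C (n + 1 + 1) t :=
    fun t h0 h1 h2 => (c1.1 t h0 h1).trans (c2.1 t h1 h2)
  have doff : ∀ t, t ≠ p → t ≠ p + 1 → t ≠ p + 1 + 1 → D n t = D (n + 1 + 1) t :=
    fun t h0 h1 h2 => (d1.1 t h1 h2).trans (d2.1 t h0 h1)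
  -- not both values zero
  have hcne : C n p ≠ 0 ∨ C (n + 1 + 1) (p + 1) ≠ 0 := by
    by_contra h0
    push Not at h0
    obtain ⟨h1, h2⟩ := h0
    have e1 : C n = C (n + 1) := by
      funext s
      by_cases s0 : s = p
      · rw [s0, h1, cm0]
      · by_cases s1 : s = p + 1
        · rw [s1, ca1, h1, cm1]
        · exact c1.1 s s0 s1
    have e2 : C (n + 1) = C (n + 1 + 1) := by
      funext s
      by_cases s0 : s = p + 1
      · rw [s0, cm1, h2]
      · by_cases s1 : s = p + 1 + 1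
        · rw [s1, cm2, cb1, h2]
        · exact c2.1 s s0 s1
    have hS : Sol w κ C := ⟨cw, fun s => by rw [← hn, e1, e2]; exact c3 s⟩
    have h3 := h C hS
    apply hkt
    have h4 : C k t = C 0 0 := by
      rcases Nat.lt_or_ge n k with h5 | h5
      · rcases (by omega : k = n + 1 ∨ k = n + 1 + 1) with rfl | rfl
        · rw [← e1]
          exact h3 n le_rfl t
        · rw [← e2, ← e1]
          exact h3 n le_rfl t
      · exact h3 k h5 t
    exact add_right_cancel h4
  have hdne : D n (p + 1) ≠ 0 ∨ D (n + 1 + 1) p ≠ 0 := by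
    by_contra h0
    push Not at h0
    obtain ⟨h1, h2⟩ := h0
    have e1 : D n = D (n + 1) := by
      funext s
      by_cases s0 : s = p + 1
      · rw [s0, h1, dm1]
      · by_cases s1 : s = p + 1 + 1
        · rw [s1, da1, h1, dm2]
        · exact d1.1 s s0 s1
    have e2 : D (n + 1) = D (n + 1 + 1) := by
      funext s
      by_cases s0 : s = p
      · rw [s0, dm0, h2]
      · by_cases s1 : s = p + 1
        · rw [s1, dm1, db1, h2]
        · exact d2.1 s s0 s1
    have hS : Sol w κ D := ⟨dw, fun s => by rw [← hn, e1, e2]; exact d3 s⟩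
    have h3 := h D hS
    apply hkt'
    have h4 : D k' t' = D 0 0 := by
      rcases Nat.lt_or_ge n k' with h5 | h5
      · rcases (by omega : k' = n + 1 ∨ k' = n + 1 + 1) with rfl | rfl
        · rw [← e1]
          exact h3 n le_rfl t'
        · rw [← e2, ← e1]
          exact h3 n le_rfl t'
      · exact h3 k' h5 t'
    exact add_right_cancel h4
  -- the inner products
  have hin := Sol.inner (w' := w) hN' cw dw (C (n + 1 + 1)) (D (n + 1 + 1)) c3 d3
  rw [← hn] at hin
  have hsp : ∀ c : ZMod N → ZMod 2, ∑ t, c t =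
      (∑ t ∈ univ \ {p, p + 1, p + 1 + 1}, c t) + (c p + (c (p + 1) + c (p + 1 + 1))) := by
    intro c
    rw [← sum_sdiff (subset_univ {p, p + 1, p + 1 + 1}), sum_insert (by simp [n1, n2]),
      sum_pair n3]
  rw [hsp, hsp] at hin
  have hoff : ∑ t ∈ univ \ {p, p + 1, p + 1 + 1}, C n t * D n t =
      ∑ t ∈ univ \ {p, p + 1, p + 1 + 1}, C (n + 1 + 1) t * D (n + 1 + 1) t := by
    refine sum_congr rfl fun s hs => ?_
    simp only [mem_sdiff, mem_univ, mem_insert, mem_singleton, true_and, not_or] at hs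
    rw [coff s hs.1 hs.2.1 hs.2.2, doff s hs.1 hs.2.1 hs.2.2]
  rw [hoff, add_right_inj, da0, ca2, cb0, db2, ca1] at hin
  simp only [mul_zero, zero_mul, zero_add, add_zero] at hin
  obtain ⟨k1, k2⟩ : C n p = D (n + 1 + 1) p ∧ D n (p + 1) = C (n + 1 + 1) (p + 1) := by
    have h3 : ∀ a b a' b' : ZMod 2, (a ≠ 0 ∨ b ≠ 0) → (a' ≠ 0 ∨ b' ≠ 0) → a * a' = b * b' →
        a = b' ∧ a' = b := by decide
    refine h3 _ _ _ _ hcne hdne ?_
    rw [hin, db1]
  -- the sum solves the shorter word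
  have hF : Sol w κ fun k t => C k t + D k t := by
    refine ⟨cw.map₂ dw fun x y => x + y, fun s => ?_⟩
    simp only [← hn, ← c3, ← d3]
    by_cases s0 : s = p
    · rw [s0, da0, cb0, k1, add_zero, zero_add]
    · by_cases s1 : s = p + 1
      · rw [s1, ca1, k1, k2, db1, add_comm]
      · by_cases s2 : s = p + 1 + 1
        · rw [s2, ca2, da1, k2, cb1, db2, zero_add, add_zero]
        · rw [coff s s0 s1 s2, doff s s0 s1 s2]
  have hF' := h _ hF
  have f0 := hF' n le_rfl p
  have f1 := hF' n le_rfl (p + 1)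
  have f2 := hF' n le_rfl (p + 1 + 1)
  simp only [da0, ca1, ca2, da1, add_zero, zero_add] at f0 f1 f2
  have g1 : D n (p + 1) = 0 := by
    rw [← f0] at f1
    have h3 : ∀ a b : ZMod 2, a + b = a → b = 0 := by decide
    exact h3 _ _ f1
  have g2 : C n p = 0 := by rw [f0, ← f2, g1]
  rcases hcne with h0 | h0
  · exact h0 g2
  · exact h0 (by rw [← k2, g1])

/-- (R3) the word `… c` can be extended to `… c (c + 1) c` -/
theorem Single.bigon_up (hN : 3 ≤ N) {w : List (ZMod N)} {κ c : ZMod N}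
    (h : Single (c :: w) κ) : Single (c :: (c + 1) :: c :: w) κ := by
  have hN' : 2 ≤ N := by omega
  have n1 : c ≠ c + 1 := ne_succ hN' c
  have n2 : c ≠ c + 1 + 1 := ne_succ_succ hN c
  have n3 : c + 1 ≠ c + 1 + 1 := ne_succ hN' _
  intro C hC
  obtain ⟨⟨⟨⟨cw, c1⟩, c2⟩, c3⟩, c4⟩ := hC
  simp only [List.length_cons] at c1 c2 c3 c4
  set n := w.length with hn
  set D : ℕ → ZMod N → ZMod 2 := fun k => if k ≤ n then C k else C (n + 1 + 1 + 1) with hD
  have hDn : D n = C n := by simp [hD]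
  have hDn1 : D (n + 1) = C (n + 1 + 1 + 1) := by simp [hD]
  have hD0 : D 0 = C 0 := by simp [hD]
  have key : C n (c + 1 + 1) = C (n + 1 + 1 + 1) (c + 1 + 1) := by
    rw [c1.1 _ n2.symm n3.symm, ← c2.2.1, ← c1.2.2, c2.1 _ n1 n2, c3.2.1, c2.2.2,
      c3.1 _ n2.symm n3.symm]
  have hS : Sol (c :: w) κ D := by
    refine ⟨⟨cw.congr fun k hk => ?_, ?_, ?_, ?_⟩, fun t => ?_⟩
    · simp [hD, hk, hn]
    · intro t h0 h1
      rw [← hn, hDn, hDn1]
      by_cases h2 : t = c + 1 + 1
      · rw [h2, key]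
      · rw [c1.1 t h0 h1, c2.1 t h1 h2, c3.1 t h0 h1]
    · rw [← hn, hDn]
      exact c1.2.1
    · rw [← hn, hDn1]
      exact c3.2.2
    · rw [List.length_cons, ← hn, hDn1, hD0]
      exact c4 t
  have h5 := h D hS
  rw [List.length_cons, ← hn] at h5
  have r0 : ∀ k ≤ n, ∀ t, C k t = C 0 0 := by
    intro k hk t
    have := h5 k (by omega) t
    rw [hD0] at this
    simpa [hD, hk] using this
  have r3 : ∀ t, C (n + 1 + 1 + 1) t = C 0 0 := by
    intro t
    have := h5 (n + 1) le_rfl t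
    rwa [hDn1, hD0] at this
  have r1 : ∀ t, C (n + 1) t = C 0 0 := by
    intro t
    have e1 : C (n + 1) (c + 1 + 1) = C 0 0 := by
      rw [← c1.1 _ n2.symm n3.symm, r0 n le_rfl]
    by_cases h0 : t = c
    · rw [h0, c1.2.2, c2.2.1, e1]
    · by_cases h1 : t = c + 1
      · rw [h1, c2.2.1, e1]
      · rw [← c1.1 t h0 h1, r0 n le_rfl]
  have r2 : ∀ t, C (n + 1 + 1) t = C 0 0 := by
    intro t
    have e1 : C (n + 1 + 1) c = C 0 0 := by
      rw [← c2.1 _ n1 n2, r1]
    by_cases h0 : t = c + 1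
    · rw [h0, ← c3.2.1, e1]
    · by_cases h1 : t = c + 1 + 1
      · rw [h1, ← c2.2.2, ← c3.2.1, e1]
      · rw [← c2.1 t h0 h1, r1]
  intro k hk t
  simp only [List.length_cons] at hk
  rcases Nat.lt_or_ge n k with h6 | h6
  · rcases (by omega : k = n + 1 ∨ k = n + 1 + 1 ∨ k = n + 1 + 1 + 1) with rfl | rfl | rfl
    · exact r1 t
    · exact r2 t
    · exact r3 t
  · exact r0 k h6 t

/-- (R3') the word `… (c + 1)` can be extended to `… (c + 1) c (c + 1)` -/
theorem Single.bigon_down (hN : 3 ≤ N) {w : List (ZMod N)} {κ c : ZMod N}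
    (h : Single ((c + 1) :: w) κ) : Single ((c + 1) :: c :: (c + 1) :: w) κ := by
  have hN' : 2 ≤ N := by omega
  have n1 : c ≠ c + 1 := ne_succ hN' c
  have n2 : c ≠ c + 1 + 1 := ne_succ_succ hN c
  have n3 : c + 1 ≠ c + 1 + 1 := ne_succ hN' _
  intro C hC
  obtain ⟨⟨⟨⟨cw, c1⟩, c2⟩, c3⟩, c4⟩ := hC
  simp only [List.length_cons] at c1 c2 c3 c4
  set n := w.length with hn
  set D : ℕ → ZMod N → ZMod 2 := fun k => if k ≤ n then C k else C (n + 1 + 1 + 1) with hD
  have hDn : D n = C n := by simp [hD]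
  have hDn1 : D (n + 1) = C (n + 1 + 1 + 1) := by simp [hD]
  have hD0 : D 0 = C 0 := by simp [hD]
  have key : C n c = C (n + 1 + 1 + 1) c := by
    rw [c1.1 _ n1 n2, c2.2.1, c1.2.2, c2.1 _ n2.symm n3.symm, ← c3.2.1, ← c2.2.2,
      c3.1 _ n1 n2]
  have hS : Sol ((c + 1) :: w) κ D := by
    refine ⟨⟨cw.congr fun k hk => ?_, ?_, ?_, ?_⟩, fun t => ?_⟩
    · simp [hD, hk, hn]
    · intro t h0 h1
      rw [← hn, hDn, hDn1]
      by_cases h2 : t = c
      · rw [h2, key]
      · rw [c1.1 t h0 h1, c2.1 t h2 h0, c3.1 t h0 h1]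
    · rw [← hn, hDn]
      exact c1.2.1
    · rw [← hn, hDn1]
      exact c3.2.2
    · rw [List.length_cons, ← hn, hDn1, hD0]
      exact c4 t
  have h5 := h D hS
  rw [List.length_cons, ← hn] at h5
  have r0 : ∀ k ≤ n, ∀ t, C k t = C 0 0 := by
    intro k hk t
    have := h5 k (by omega) t
    rw [hD0] at this
    simpa [hD, hk] using this
  have r3 : ∀ t, C (n + 1 + 1 + 1) t = C 0 0 := by
    intro t
    have := h5 (n + 1) le_rfl t
    rwa [hDn1, hD0] at this
  have r1 : ∀ t, C (n + 1) t = C 0 0 := by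
    intro t
    have e1 : C (n + 1) c = C 0 0 := by
      rw [← c1.1 _ n1 n2, r0 n le_rfl]
    by_cases h0 : t = c + 1
    · rw [h0, ← c2.2.1, e1]
    · by_cases h1 : t = c + 1 + 1
      · rw [h1, ← c1.2.2, ← c2.2.1, e1]
      · rw [← c1.1 t h0 h1, r0 n le_rfl]
  have r2 : ∀ t, C (n + 1 + 1) t = C 0 0 := by
    intro t
    have e1 : C (n + 1 + 1) (c + 1 + 1) = C 0 0 := by
      rw [← c2.1 _ n2.symm n3.symm, r1]
    by_cases h0 : t = c
    · rw [h0, c2.2.2, c3.2.1, e1]
    · by_cases h1 : t = c + 1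
      · rw [h1, c3.2.1, e1]
      · rw [← c2.1 t h0 h1, r1]
  intro k hk t
  simp only [List.length_cons] at hk
  rcases Nat.lt_or_ge n k with h6 | h6
  · rcases (by omega : k = n + 1 ∨ k = n + 1 + 1 ∨ k = n + 1 + 1 + 1) with rfl | rfl | rfl
    · exact r1 t
    · exact r2 t
    · exact r3 t
  · exact r0 k h6 t

/-- (R4) far letters commute -/
theorem Single.swap {w : List (ZMod N)} {κ a b : ZMod N} (h1 : a ≠ b) (h2 : a ≠ b + 1)
    (h3 : b ≠ a + 1) (h : Single (a :: b :: w) κ) : Single (b :: a :: w) κ := by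
  intro C hC
  obtain ⟨⟨⟨cw, c1⟩, c2⟩, c3⟩ := hC
  simp only [List.length_cons] at c1 c2 c3
  set n := w.length with hn
  -- the middle row for the other order
  set m : ZMod N → ZMod 2 := fun t => if t = b ∨ t = b + 1 then C (n + 1 + 1) t else C n t with hm
  set D : ℕ → ZMod N → ZMod 2 := fun k => if k = n + 1 then m else C k with hD
  have hDn : D n = C n := by simp [hD]
  have hDn1 : D (n + 1) = m := by simp [hD]
  have hDn2 : D (n + 1 + 1) = C (n + 1 + 1) := by simp [hD]
  have hD0 : D 0 = C 0 := by simp [hD]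
  have h4 : a + 1 ≠ b + 1 := fun h5 => h1 (add_right_cancel h5)
  have s1 : Step b (C n) m := by
    refine ⟨fun t h5 h6 => by simp [hm, h5, h6], ?_, ?_⟩
    · rw [c1.1 b h1.symm h3, c1.1 (b + 1) h2.symm h4.symm]
      exact c2.2.1
    · simp only [hm, true_or, or_true, if_true]
      exact c2.2.2
  have s2 : Step a m (C (n + 1 + 1)) := by
    refine ⟨fun t h5 h6 => ?_, ?_, ?_⟩
    · by_cases h7 : t = b ∨ t = b + 1
      · simp only [hm, if_pos h7]
      · simp only [hm, if_neg h7]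
        push Not at h7
        rw [c1.1 t h5 h6, c2.1 t h7.1 h7.2]
    · have h7 : ¬ (a = b ∨ a = b + 1) := by
        push Not
        exact ⟨h1, h2⟩
      have h8 : ¬ (a + 1 = b ∨ a + 1 = b + 1) := by
        push Not
        exact ⟨h3.symm, h4⟩
      simp only [hm, if_neg h7, if_neg h8]
      exact c1.2.1
    · rw [← c2.1 a h1 h2, ← c2.1 (a + 1) h3.symm h4]
      exact c1.2.2
  have hS : Sol (a :: b :: w) κ D := by
    refine ⟨⟨⟨cw.congr fun k hk => ?_, ?_⟩, ?_⟩, fun t => ?_⟩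
    · have : k ≠ n + 1 := by omega
      simp [hD, this]
    · rw [← hn, hDn, hDn1]
      exact s1
    · rw [List.length_cons, ← hn, hDn1, hDn2]
      exact s2
    · simp only [List.length_cons, ← hn]
      rw [hDn2, hD0]
      exact c3 t
  have h5 := h D hS
  simp only [List.length_cons, ← hn] at h5
  intro k hk t
  simp only [List.length_cons, ← hn] at hk
  by_cases h6 : k = n + 1
  · subst h6
    by_cases h7 : t = a ∨ t = a + 1
    · have h8 : t ≠ b ∧ t ≠ b + 1 := by
        rcases h7 with rfl | rfl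
        · exact ⟨h1, h2⟩
        · exact ⟨h3.symm, h4⟩
      rw [c2.1 t h8.1 h8.2, ← hDn2, h5 (n + 1 + 1) le_rfl t, hD0]
    · push Not at h7
      rw [← c1.1 t h7.1 h7.2, ← hDn, h5 n (by omega) t, hD0]
  · have := h5 k hk t
    rw [hD0] at this
    simpa [hD, h6] using this

end Pool.Agent.Helper4.BL.Ring
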