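import Pool.Agent.Helper4.BL.Letters
import Pool.Agent.Helper4.BL.Ring

/-!
# From words to classes

Tree letters give a single loop; several letters on one edge; a class of `Lcol` is connected if
its word along the base cycle is a single loop.
-/

set_option autoImplicit false
set_option linter.unusedSectionVars false

namespace Pool.Agent.Helper4.BL.Ring

open Finset

variable {N : ℕ} [NeZero N] {α : Type*}

theorem val_succ {G : ℕ} [NeZero G] {y : ZMod G} (h : y + 1 ≠ 0) :
    (y + 1).val = y.val + 1 := by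
  rcases Nat.lt_or_ge 1 G with hG | hG
  · have : Fact (1 < G) := ⟨hG⟩
    have h1 : y.val + (1 : ZMod G).val < G := by
      rw [ZMod.val_one]
      by_contra h2
      have h3 : y.val + 1 = G := by
        have := ZMod.val_lt y
        omega
      apply h
      have h4 : ((y.val + 1 : ℕ) : ZMod G) = 0 := by
        rw [h3]
        exact ZMod.natCast_self G
      rw [← h4]
      push_cast
      rw [ZMod.natCast_zmod_val]
    rw [ZMod.val_add_of_lt h1, ZMod.val_one]
  · have hG' : G = 1 := by
      have := NeZero.pos G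
      omega
    subst hG'
    exact absurd (Subsingleton.elim _ _) h

/-- the indicator of the arc `m + 1, …, x₀` changes only at `m` and at `x₀` -/
theorem exists_arc {G : ℕ} [NeZero G] {m x₀ : ZMod G} (h : x₀ ≠ m) :
    ∃ d : ZMod G → ZMod 2, (∀ x, x ≠ m → x ≠ x₀ → d x = d (x + 1)) ∧ d x₀ ≠ d (x₀ + 1) := by
  classical
  refine ⟨fun x => if (x - (m + 1)).val ≤ (x₀ - (m + 1)).val then 1 else 0, ?_, ?_⟩
  · intro x hm hx
    have h1 : x - (m + 1) + 1 ≠ 0 := fun h2 => hm (by
      have : x - m = 0 := by rw [← h2]; ring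
      exact sub_eq_zero.1 this)
    have h2 : (x + 1 - (m + 1)).val = (x - (m + 1)).val + 1 := by
      rw [← val_succ h1]
      congr 1
      ring
    have h3 : (x - (m + 1)).val ≠ (x₀ - (m + 1)).val := fun h4 =>
      hx (sub_left_injective (ZMod.val_injective G h4))
    simp only [h2]
    by_cases h5 : (x - (m + 1)).val ≤ (x₀ - (m + 1)).val
    · rw [if_pos h5, if_pos (by omega)]
    · rw [if_neg h5, if_neg (by omega)]
  · have h1 : x₀ - (m + 1) + 1 ≠ 0 := fun h2 => h (by
      have : x₀ - m = 0 := by rw [← h2]; ring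
      exact sub_eq_zero.1 this)
    have h2 : (x₀ + 1 - (m + 1)).val = (x₀ - (m + 1)).val + 1 := by
      rw [← val_succ h1]
      congr 1
      ring
    simp only [h2, le_refl, if_true]
    rw [if_neg (by omega)]
    exact one_ne_zero

theorem tree_aux (hN : 2 ≤ N) {G : ℕ} [NeZero G] (q : ZMod N →+ ZMod G) (hq : q 1 = 1)
    {κ : ZMod N} (hκ : q κ = 0) {m : ZMod G} {w : List (ZMod N)} (hnd : (w.map q).Nodup)
    (hm : m ∉ w.map q) {C : ℕ → ZMod N → ZMod 2} (hC : Sol w κ C) :
    (∀ k ≤ w.length, C k = C 0) ∧ (∀ t, C 0 t = C 0 (t + κ)) ∧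
      ∀ p ∈ w, C 0 p = C 0 (p + 1) := by
  induction w generalizing C with
  | nil =>
    refine ⟨fun k hk => ?_, fun t => hC.2 t, by simp⟩
    have : k = 0 := by simpa using hk
    rw [this]
  | cons p w ih =>
    simp only [List.map_cons, List.nodup_cons, List.mem_cons, not_or] at hnd hm
    obtain ⟨d, d1, d2⟩ := exists_arc (m := m) (x₀ := q p) (Ne.symm hm.1)
    have hD : Sol w κ fun _ t => d (q t) := by
      refine ⟨?_, fun t => by simp only [map_add, hκ, add_zero]⟩
      have key : ∀ p' ∈ w, Step p' (fun t => d (q t)) (fun t => d (q t)) := by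
        intro p' hp'
        have h1 : q p' ∈ w.map q := List.mem_map.2 ⟨p', hp', rfl⟩
        have h2 : d (q p') = d (q (p' + 1)) := by
          rw [map_add, hq]
          refine d1 _ (fun h3 => hm.2 (h3 ▸ h1)) (fun h3 => hnd.1 (h3 ▸ h1))
        exact ⟨fun _ _ _ => rfl, h2, h2⟩
      clear ih hnd hm hC
      induction w with
      | nil => trivial
      | cons p' w ih =>
        exact ⟨ih fun x hx => key x (List.mem_cons_of_mem _ hx), key p' List.mem_cons_self⟩
    have h1 := merge hN hD (by
      simp only [map_add, hq]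
      exact d2) hC
    have hC' : Sol w κ C := ⟨hC.1.1, fun t => by
      rw [← h1]
      exact hC.2 t⟩
    obtain ⟨i1, i2, i3⟩ := ih hnd.2 hm.2 hC'
    refine ⟨fun k hk => ?_, i2, fun p' hp' => ?_⟩
    · rw [List.length_cons] at hk
      rcases Nat.lt_or_ge w.length k with h2 | h2
      · rw [(by omega : k = w.length + 1), h1, i1 _ le_rfl]
      · exact i1 k h2
    · rcases List.mem_cons.1 hp' with rfl | hp'
      · have := hC.1.2.2.1
        rwa [i1 _ le_rfl] at this
      · exact i3 p' hp'

/-- TREE LETTERS: all residues except one -/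
theorem single_tree (hN : 2 ≤ N) {G : ℕ} [NeZero G] (q : ZMod N →+ ZMod G) (hq : q 1 = 1)
    {κ : ZMod N} (hκ : q κ = 0) (hgen : ∀ t, q t = 0 → ∃ n : ℕ, t = n • κ) {m : ZMod G}
    {w : List (ZMod N)} (hnd : (w.map q).Nodup) (hm : m ∉ w.map q)
    (hall : ∀ x, x ≠ m → x ∈ w.map q) : Single w κ := by
  intro C hC
  obtain ⟨h1, h2, h3⟩ := tree_aux hN q hq hκ hnd hm hC
  -- invariance under the kernel
  have h4 : ∀ n : ℕ, ∀ t, C 0 t = C 0 (t + n • κ) := by
    intro n
    induction n with
    | zero => simp
    | succ n ih =>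
      intro t
      rw [ih t, h2, succ_nsmul, add_assoc]
  have h5 : ∀ s t, q s = q t → C 0 s = C 0 t := by
    intro s t hst
    obtain ⟨n, hn⟩ := hgen (t - s) (by rw [map_sub, hst, sub_self])
    rw [h4 n s, ← hn]
    congr 1
    ring
  have h6 : ∀ t, q t ≠ m → C 0 t = C 0 (t + 1) := by
    intro t ht
    obtain ⟨p, hp, hpt⟩ := List.mem_map.1 (hall _ ht)
    rw [← h5 p t hpt, h3 p hp]
    exact h5 _ _ (by rw [map_add, map_add, hpt])
  -- a representative of `m`
  have hsurj : ∀ x : ZMod G, ∃ t : ZMod N, q t = x := by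
    intro x
    refine ⟨x.val • (1 : ZMod N), ?_⟩
    rw [map_nsmul, hq, nsmul_eq_mul, mul_one, ZMod.natCast_zmod_val]
  obtain ⟨m', hm'⟩ := hsurj m
  have h7 : ∀ n : ℕ, n < G → C 0 (m' + 1 + n • 1) = C 0 (m' + 1) := by
    intro n
    induction n with
    | zero => simp
    | succ n ih =>
      intro hn
      rw [succ_nsmul, ← add_assoc, ← h6, ih (by omega)]
      rw [map_add, map_add, map_nsmul, hq, hm', nsmul_eq_mul, mul_one]
      intro h8
      have h9 : ((n + 1 : ℕ) : ZMod G) = 0 := by
        push_cast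
        have : m + 1 + (n : ZMod G) - m = 0 := by rw [h8, sub_self]
        rw [← this]
        ring
      rw [ZMod.natCast_eq_zero_iff] at h9
      exact absurd (Nat.le_of_dvd (by omega) h9) (by omega)
  have h8 : ∀ t, C 0 t = C 0 (m' + 1) := by
    intro t
    rw [← h7 (q t - (m + 1)).val (ZMod.val_lt _)]
    apply h5
    rw [map_add, map_add, map_nsmul, hq, hm', nsmul_eq_mul, mul_one, ZMod.natCast_zmod_val]
    ring
  intro k hk t
  rw [h1 k hk, h8 t, h8 0]

/-- several letters on one edge -/
def MStep (u : List (ZMod N)) (a b : ZMod N → α) : Prop :=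
  (∀ t, t ∉ u → t - 1 ∉ u → a t = b t) ∧ ∀ t ∈ u, a t = a (t + 1) ∧ b t = b (t + 1)

/-- pairwise far letters -/
def Far (u : List (ZMod N)) : Prop := u.Pairwise fun a b => a ≠ b ∧ a ≠ b + 1 ∧ b ≠ a + 1

theorem far_of {u : List (ZMod N)} (h : u.Nodup) (h' : ∀ t ∈ u, t + 1 ∉ u) : Far u := by
  induction u with
  | nil => exact List.Pairwise.nil
  | cons p u ih =>
    rw [List.nodup_cons] at h
    refine List.Pairwise.cons ?_ (ih h.2 fun t ht ht' =>
      h' t (List.mem_cons_of_mem _ ht) (List.mem_cons_of_mem _ ht'))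
    intro b hb
    refine ⟨?_, ?_, ?_⟩
    · rintro rfl
      exact h.1 hb
    · rintro rfl
      exact h' b (List.mem_cons_of_mem _ hb) List.mem_cons_self
    · rintro rfl
      exact h' p List.mem_cons_self (List.mem_cons_of_mem _ hb)

theorem MStep.path {u v : List (ZMod N)} (hu : Far u) {a b : ZMod N → α} (h : MStep u a b)
    {C : ℕ → ZMod N → α} (hC : Path v C) (ha : C v.length = a) :
    ∃ C', Path (u ++ v) C' ∧ (∀ k ≤ v.length, C' k = C k) ∧ C' (u ++ v).length = b := by
  classical
  induction u generalizing a b with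
  | nil =>
    refine ⟨C, hC, fun _ _ => rfl, ?_⟩
    rw [List.nil_append, ha]
    funext t
    exact h.1 t (by simp) (by simp)
  | cons p u ih =>
    obtain ⟨h1, h2⟩ := h
    have hf := List.pairwise_cons.1 hu
    set a' : ZMod N → α := fun t => if t = p ∨ t = p + 1 then a t else b t with ha'
    have m1 : MStep u a a' := by
      refine ⟨fun t ht ht' => ?_, fun t ht => ⟨(h2 t (List.mem_cons_of_mem _ ht)).1, ?_⟩⟩
      · by_cases h3 : t = p ∨ t = p + 1
        · simp only [ha', if_pos h3]
        · simp only [ha', if_neg h3]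
          push Not at h3
          refine h1 t ?_ ?_
          · rw [List.mem_cons, not_or]
            exact ⟨h3.1, ht⟩
          · rw [List.mem_cons, not_or]
            exact ⟨fun h4 => h3.2 (by rw [← h4]; ring), ht'⟩
      · obtain ⟨f1, f2, f3⟩ := hf.1 t ht
        have h4 : ¬ (t = p ∨ t = p + 1) := by
          push Not
          exact ⟨f1.symm, f3⟩
        have h5 : ¬ (t + 1 = p ∨ t + 1 = p + 1) := by
          push Not
          exact ⟨f2.symm, fun h6 => f1 (add_right_cancel h6).symm⟩
        simp only [ha', if_neg h4, if_neg h5]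
        exact (h2 t (List.mem_cons_of_mem _ ht)).2
    have m2 : Step p a' b := by
      refine ⟨fun t h3 h4 => by simp [ha', h3, h4], ?_, (h2 p List.mem_cons_self).2⟩
      simp only [ha', true_or, or_true, if_true]
      exact (h2 p List.mem_cons_self).1
    obtain ⟨C', c1, c2, c3⟩ := ih hf.2 m1 ha
    refine ⟨fun k => if k ≤ (u ++ v).length then C' k else b, ⟨?_, ?_⟩, fun k hk => ?_, ?_⟩
    · exact c1.congr fun k hk => by rw [if_pos hk]
    · change Step p (if (u ++ v).length ≤ (u ++ v).length then C' (u ++ v).length else b)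
        (if (u ++ v).length + 1 ≤ (u ++ v).length then C' ((u ++ v).length + 1) else b)
      rw [if_pos le_rfl, if_neg (by omega), c3]
      exact m2
    · have h6 : k ≤ (u ++ v).length := by
        rw [List.length_append]
        omega
      simp only [h6, if_true]
      exact c2 k hk
    · simp

/-- the word of a family of letters, the letters of the edge `k` are `u k` -/
def wordOf (u : ℕ → List (ZMod N)) : ℕ → List (ZMod N)
  | 0 => []
  | k + 1 => u k ++ wordOf u k

theorem rows_const {u : ℕ → List (ZMod N)} {M : ℕ} {κ : ZMod N} (hu : ∀ k < M, Far (u k))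
    (hS : Single (wordOf u M) κ) {R : ℕ → ZMod N → ZMod 2}
    (hR : ∀ k < M, MStep (u k) (R k) (R (k + 1))) (hcl : ∀ t, R M t = R 0 (t + κ)) :
    ∀ k ≤ M, ∀ t, R k t = R 0 0 := by
  have key : ∀ k ≤ M, ∃ C : ℕ → ZMod N → ZMod 2, Path (wordOf u k) C ∧ C 0 = R 0 ∧
      C (wordOf u k).length = R k ∧ ∀ i ≤ k, ∃ j ≤ (wordOf u k).length, C j = R i := by
    intro k
    induction k with
    | zero =>
      intro _
      refine ⟨R, trivial, rfl, rfl, fun i hi => ⟨0, by simp, ?_⟩⟩
      rw [Nat.le_zero.1 hi]
    | succ k ih =>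
      intro hk
      obtain ⟨C, c1, c2, c3, c4⟩ := ih (by omega)
      obtain ⟨C', d1, d2, d3⟩ := (hR k (by omega)).path (hu k (by omega)) c1 c3
      refine ⟨C', d1, by rw [d2 0 (Nat.zero_le _), c2], d3, fun i hi => ?_⟩
      rcases Nat.lt_or_ge k i with h1 | h1
      · refine ⟨(wordOf u (k + 1)).length, le_rfl, ?_⟩
        rw [(by omega : i = k + 1)]
        exact d3
      · obtain ⟨j, hj, hj'⟩ := c4 i h1
        refine ⟨j, ?_, by rw [d2 j hj, hj']⟩
        simp only [wordOf, List.length_append]
        omega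
  obtain ⟨C, c1, c2, c3, c4⟩ := key M le_rfl
  have h1 := hS C ⟨c1, fun t => by rw [c3, c2, hcl]⟩
  intro k hk t
  obtain ⟨j, hj, hj'⟩ := c4 k hk
  rw [← hj', h1 j hj t, c2]

end Pool.Agent.Helper4.BL.Ring

namespace Pool.Agent.Helper4.BL

open Finset Pool.Agent.Helper74.BL Pool.Agent.Helper4.BL.Ring

variable {K : Type*} [AddCommGroup K] [DecidableEq K] {J : Type*} [Fintype J] [DecidableEq J]
  {g : K} {f : J → K} {base : K → J → J} {L : Finset (K × J)} {N : ℕ} [NeZero N]

theorem z_apply (z : ZMod N →+ K) (hz : z 1 = g) (t : ZMod N) : z t = t.val • g := by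
  rw [← hz, ← map_nsmul, nsmul_eq_mul, mul_one, ZMod.natCast_zmod_val]

theorem base_add_z (z : ZMod N →+ K) (hz : z 1 = g) (hper : ∀ x j, base (x + g) j = base x j)
    (x : K) (j : J) (t : ZMod N) : base (x + z t) j = base x j := by
  rw [z_apply z hz]
  induction t.val with
  | zero => simp
  | succ n ih => rw [succ_nsmul, ← add_assoc, hper, ih]

/-- a closed walk along the class `c` of the base, lifted to `K`; `dir k` is the direction of the
label at the step `k` -/
structure Walk (f : J → K) (base : K → J → J) (z : ZMod N →+ K) (c : J) (M : ℕ) (o : ℕ → K)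
    (s : ℕ → J) (dir : ℕ → Bool) (κ : ZMod N) : Prop where
  fwd : ∀ k < M, dir k = true → base (o k) (s k) = c ∧ o (k + 1) = o k + f (s k)
  bwd : ∀ k < M, dir k = false → base (o (k + 1)) (s k) = c ∧ o k = o (k + 1) + f (s k)
  cover : ∀ x, ∃ k < M, ∃ t, x = o k + z t
  close : o M = o 0 + z κ

/-- the tail of the label at the step `k` -/
def tl (o : ℕ → K) (dir : ℕ → Bool) (k : ℕ) : K := if dir k then o k else o (k + 1)

/-- BRIDGE: the class `c` is connected if its word is a single loop -/
theorem constV_single {z : ZMod N →+ K} (hz : z 1 = g)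
    (hper : ∀ x j, base (x + g) j = base x j) {c : J} {M : ℕ} {o : ℕ → K} {s : ℕ → J}
    {dir : ℕ → Bool} {κ : ZMod N} (hw : Walk f base z c M o s dir κ)
    {u : ℕ → List (ZMod N)} (hu : ∀ k < M, Far (u k))
    (hL : ∀ k < M, ∀ t, t ∈ u k ↔ (tl o dir k + z t, s k) ∈ L)
    (hS : Single (wordOf u M) κ) {C : K → ZMod 2} (hC : ConstV g f base L c C) :
    ∀ x y, C x = C y := by
  set R : ℕ → ZMod N → ZMod 2 := fun k t => C (o k + z t) with hR
  have hz' : ∀ t : ZMod N, z (t + 1) = z t + g := fun t => by rw [map_add, hz]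
  have hz'' : ∀ t : ZMod N, z (t - 1) = z t - g := fun t => by rw [map_sub, hz]
  have hM : ∀ k < M, MStep (u k) (R k) (R (k + 1)) := by
    intro k hk
    cases hd : dir k with
    | true =>
      obtain ⟨h1, h2⟩ := hw.fwd k hk hd
      have h3 : tl o dir k = o k := by simp [tl, hd]
      have hL' := hL k hk
      rw [h3] at hL'
      refine ⟨fun t ht ht' => ?_, fun t ht => ?_⟩
      · have h4 := hC.1 (o k + z t) (s k) (by rw [base_add_z z hz hper, h1])
          (fun h => ht ((hL' t).2 h)) (fun h => ht' ((hL' _).2 (by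
            rw [hz'', ← add_sub_assoc]
            exact h)))
        simp only [hR]
        rw [h4, h2, add_right_comm]
      · have h4 := hC.2 _ ((hL' t).1 ht) (by
          change base (o k + z t) (s k) = c
          rw [base_add_z z hz hper, h1])
        simp only at h4
        constructor
        · simp only [hR, hz']
          rw [h4.1, add_assoc]
        · simp only [hR, hz', h2]
          rw [add_right_comm, h4.2]
          congr 1
          abel
    | false =>
      obtain ⟨h1, h2⟩ := hw.bwd k hk hd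
      have h3 : tl o dir k = o (k + 1) := by simp [tl, hd]
      have hL' := hL k hk
      rw [h3] at hL'
      refine ⟨fun t ht ht' => ?_, fun t ht => ?_⟩
      · have h4 := hC.1 (o (k + 1) + z t) (s k) (by rw [base_add_z z hz hper, h1])
          (fun h => ht ((hL' t).2 h)) (fun h => ht' ((hL' _).2 (by
            rw [hz'', ← add_sub_assoc]
            exact h)))
        simp only [hR]
        rw [h4, h2, add_right_comm]
      · have h4 := hC.2 _ ((hL' t).1 ht) (by
          change base (o (k + 1) + z t) (s k) = c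
          rw [base_add_z z hz hper, h1])
        simp only at h4
        constructor
        · simp only [hR, hz', h2]
          rw [add_right_comm, h4.2]
          congr 1
          abel
        · simp only [hR, hz']
          rw [h4.1, add_assoc]
  have hcl : ∀ t, R M t = R 0 (t + κ) := by
    intro t
    simp only [hR, hw.close, map_add]
    congr 1
    abel
  have h1 := rows_const hu hS hM hcl
  have h2 : ∀ x, C x = R 0 0 := by
    intro x
    obtain ⟨k, hk, t, rfl⟩ := hw.cover x
    exact h1 k hk.le t
  intro x y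
  rw [h2 x, h2 y]

end Pool.Agent.Helper4.BL
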